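import Mathlib

/-!
# Ideals on `ω`, maximal ideals, cofinality and relative cofinality
-/

set_option autoImplicit false

namespace Pool.Agent.Q307.MI

open Cardinal

/-- An ideal on `ω`: closed under subsets and finite unions, proper, and containing all finite
sets. -/
structure IsIdealOn (I : Set (Set ℕ)) : Prop where
  subset_mem : ∀ A ∈ I, ∀ B, B ⊆ A → B ∈ I
  union_mem : ∀ A ∈ I, ∀ B ∈ I, A ∪ B ∈ I
  univ_notMem : Set.univ ∉ I
  finite_mem : ∀ A : Set ℕ, A.Finite → A ∈ I

/-- A maximal ideal on `ω`: an ideal which is maximal under inclusion among the ideals. -/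
def IsMaximalIdeal (I : Set (Set ℕ)) : Prop :=
  IsIdealOn I ∧ ∀ I', IsIdealOn I' → I ⊆ I' → I' = I

/-- The cofinality of `I`: the least size of a family `B ⊆ I` such that every member of `I` is
contained in some member of `B`. -/
noncomputable def cof (I : Set (Set ℕ)) : Cardinal.{0} :=
  sInf {κ | ∃ B : Set (Set ℕ), B ⊆ I ∧ #B = κ ∧ ∀ X ∈ I, ∃ Y ∈ B, X ⊆ Y}

/-- The relative cofinality: the least size of a family `A ⊆ I` such that every member of `I` is
contained modulo `J` in some member of `A`. -/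
noncomputable def relCof (J I : Set (Set ℕ)) : Cardinal.{0} :=
  sInf {κ | ∃ A : Set (Set ℕ), A ⊆ I ∧ #A = κ ∧ ∀ X ∈ I, ∃ Y ∈ A, X \ Y ∈ J}

end Pool.Agent.Q307.MI
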