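import Mathlib

/-!
# An independent family of continuum many sets
-/

set_option autoImplicit false

namespace Pool.Agent.Q307.MI

open Cardinal

/-- The sets of Hausdorff's independent family. -/
def hx (A : Set ℕ) : Set (Finset ℕ × Finset (Finset ℕ)) :=
  open Classical in {d | d.1.filter (· ∈ A) ∈ d.2}

theorem hx_infinite (s t : Finset (Set ℕ)) (hst : Disjoint s t) :
    {d | (∀ A ∈ s, d ∈ hx A) ∧ ∀ A ∈ t, d ∉ hx A}.Infinite := by
  classical
  -- a bound for the differences
  have h1 : ∀ A B : Set ℕ, ∃ N : ℕ, A ≠ B → ∀ n, N ≤ n →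
      (Finset.range n).filter (· ∈ A) ≠ (Finset.range n).filter (· ∈ B) := by
    intro A B
    by_cases h : A = B
    · exact ⟨0, fun h' => absurd h h'⟩
    · obtain ⟨k, hk⟩ : ∃ k, ¬ (k ∈ A ↔ k ∈ B) := by
        by_contra hcon
        push Not at hcon
        exact h (Set.ext hcon)
      refine ⟨k + 1, fun _ n hn heq => hk ?_⟩
      have h2 : k ∈ (Finset.range n).filter (· ∈ A) ↔ k ∈ (Finset.range n).filter (· ∈ B) := by
        rw [heq]
      simpa [Finset.mem_filter, Finset.mem_range, Nat.lt_of_succ_le hn] using h2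
  choose N hN using h1
  let M : ℕ := (s ×ˢ t).sup fun q => N q.1 q.2
  have hM : ∀ A ∈ s, ∀ B ∈ t, N A B ≤ M := by
    intro A hA B hB
    exact Finset.le_sup (f := fun q : Set ℕ × Set ℕ => N q.1 q.2) (b := (A, B))
      (Finset.mk_mem_product hA hB)
  refine Set.infinite_of_injective_forall_mem (f := fun n : ℕ =>
    ((Finset.range (M + n), s.image fun A => (Finset.range (M + n)).filter (· ∈ A)) :
      Finset ℕ × Finset (Finset ℕ))) ?_ ?_
  · intro n m hnm
    have h2 := congrArg (fun q => q.1.card) hnm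
    simpa using h2
  · intro n
    refine ⟨fun A hA => ?_, fun B hB hmem => ?_⟩
    · exact Finset.mem_image.2 ⟨A, hA, rfl⟩
    · obtain ⟨A, hA, hAB⟩ := Finset.mem_image.1 hmem
      have hne : A ≠ B := by
        rintro rfl
        exact Finset.disjoint_left.1 hst hA hB
      exact hN A B hne (M + n) ((hM A hA B hB).trans (Nat.le_add_right _ _)) hAB

theorem exists_indep (ι : Type) (h : #ι ≤ 𝔠) : ∃ x : ι → Set ℕ, ∀ s t : Finset ι, Disjoint s t →
    {n | (∀ i ∈ s, n ∈ x i) ∧ ∀ i ∈ t, n ∉ x i}.Infinite := by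
  classical
  have h2 : #ι ≤ #(Set ℕ) := by
    rw [Cardinal.mk_set_nat]
    exact h
  obtain ⟨e⟩ := (Cardinal.le_def _ _).1 h2
  let g := Denumerable.eqv (Finset ℕ × Finset (Finset ℕ))
  refine ⟨fun i => g '' hx (e i), fun s t hst => ?_⟩
  have h3 := hx_infinite (s.map e) (t.map e) (by
    rw [Finset.disjoint_map]
    exact hst)
  refine (h3.image g.injective.injOn).mono ?_
  rintro _ ⟨d, ⟨hd1, hd2⟩, rfl⟩
  refine ⟨fun i hi => ⟨d, hd1 _ (Finset.mem_map_of_mem e hi), rfl⟩, fun i hi => ?_⟩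
  rintro ⟨d', hd', heq⟩
  rw [g.injective heq] at hd'
  exact hd2 _ (Finset.mem_map_of_mem e hi) hd'

end Pool.Agent.Q307.MI
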