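import Mathlib
import Pool.Agent.Q307.MI.Indep

/-!
# A maximal filter for an independent family, and deciding conditions
-/

set_option autoImplicit false

namespace Pool.Agent.Q307.MI

open Cardinal Filter Set

/-- The Boolean combination which is given by the condition `(s, f)`. -/
def cell {W : Type} (a : W → Set ℕ) (s : Finset W) (f : W → Bool) : Set ℕ :=
  {n | ∀ i ∈ s, (n ∈ a i ↔ f i = true)}

theorem cell_anti {W : Type} (a : W → Set ℕ) {s s' : Finset W} {f f' : W → Bool} (h : s ⊆ s')
    (hf : ∀ i ∈ s, f' i = f i) : cell a s' f' ⊆ cell a s f := by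
  intro n hn i hi
  rw [← hf i hi]
  exact hn i (h hi)

/-- All Boolean combinations are positive with respect to `F`. -/
def Pos {W : Type} (a : W → Set ℕ) (F : Filter ℕ) : Prop :=
  ∀ s f, ∃ᶠ n in F, n ∈ cell a s f

theorem exists_maximal {W : Type} (a : W → Set ℕ) (F0 : Filter ℕ) (h0 : Pos a F0) :
    ∃ F ≤ F0, Pos a F ∧ ∀ F' ≤ F, Pos a F' → F' = F := by
  have hz := zorn_le_nonempty₀ (α := (Filter ℕ)ᵒᵈ) {F | Pos a (OrderDual.ofDual F)} (by
    intro c hc hchain y hy
    refine ⟨OrderDual.toDual (⨅ F ∈ c, OrderDual.ofDual F), ?_, ?_⟩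
    · intro s f
      rw [Filter.frequently_iff]
      intro U hU
      have hdir : DirectedOn (fun x y : (Filter ℕ)ᵒᵈ => OrderDual.ofDual x ≥ OrderDual.ofDual y) c := by
        intro x hx y hy
        rcases hchain.total hx hy with h | h
        · exact ⟨y, hy, h, le_rfl⟩
        · exact ⟨x, hx, le_rfl, h⟩
      have hU' : U ∈ ⨅ F ∈ c, OrderDual.ofDual F := hU
      rw [Filter.mem_biInf_of_directed (f := fun F : (Filter ℕ)ᵒᵈ => OrderDual.ofDual F) hdir ⟨y, hy⟩] at hU'
      obtain ⟨F, hF, hUF⟩ := hU'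
      exact (Filter.frequently_iff.1 (hc hF s f)) hUF
    · intro z hz
      exact biInf_le (fun F : (Filter ℕ)ᵒᵈ => OrderDual.ofDual F) hz) (OrderDual.toDual F0) h0
  obtain ⟨m, hm, hmax⟩ := hz
  refine ⟨OrderDual.ofDual m, hm, hmax.1, fun F' hF' hP => ?_⟩
  exact le_antisymm hF' (hmax.2 (y := OrderDual.toDual F') hP hF')

/-- If `X` is positive for a maximal `F`, then some cell is contained in `X` modulo `F`. -/
theorem exists_cell {W : Type} {a : W → Set ℕ} {F : Filter ℕ}
    (hmax : ∀ F' ≤ F, Pos a F' → F' = F) {X : Set ℕ} (hX : ∃ᶠ n in F, n ∈ X) :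
    ∃ s f, ∀ᶠ n in F, n ∈ cell a s f → n ∈ X := by
  by_contra hcon
  push Not at hcon
  have h1 : F ⊓ 𝓟 Xᶜ = F := by
    refine hmax _ inf_le_left fun s f => ?_
    rw [Filter.frequently_inf_principal]
    refine (hcon s f).mono fun n hn => ?_
    exact ⟨hn.2, hn.1⟩
  apply hX
  have h2 : Xᶜ ∈ F ⊓ 𝓟 Xᶜ := Filter.mem_inf_of_right (Filter.mem_principal_self _)
  rw [h1] at h2
  exact h2

/-- The condition `(s, f)` decides `X`. -/
def Decides {W : Type} (a : W → Set ℕ) (F : Filter ℕ) (s : Finset W) (f : W → Bool)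
    (X : Set ℕ) : Prop :=
  (∀ᶠ n in F, n ∈ cell a s f → n ∈ X) ∨ (∀ᶠ n in F, n ∈ cell a s f → n ∉ X)

theorem Decides.mono {W : Type} {a : W → Set ℕ} {F : Filter ℕ} {s s' : Finset W}
    {f f' : W → Bool} {X : Set ℕ} (h : Decides a F s f X) (hs : s ⊆ s')
    (hf : ∀ i ∈ s, f' i = f i) : Decides a F s' f' X := by
  rcases h with h | h
  · exact Or.inl (h.mono fun n hn hc => hn (cell_anti a hs hf hc))
  · exact Or.inr (h.mono fun n hn hc => hn (cell_anti a hs hf hc))

/-- Every condition can be extended to one which decides `X`. -/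
theorem exists_decides {W : Type} {a : W → Set ℕ} {F : Filter ℕ} (hP : Pos a F)
    (hmax : ∀ F' ≤ F, Pos a F' → F' = F) (X : Set ℕ) (s : Finset W) (f : W → Bool) :
    ∃ s' f', s ⊆ s' ∧ (∀ i ∈ s, f' i = f i) ∧ Decides a F s' f' X := by
  classical
  by_cases h : ∃ᶠ n in F, n ∈ cell a s f ∩ X
  · obtain ⟨t, g, htg⟩ := exists_cell hmax h
    -- compatibility
    have hcomp : ∀ i ∈ s, i ∈ t → f i = g i := by
      intro i hi hit
      by_contra hne
      refine hP t g ?_
      refine htg.mono fun n hn hc => ?_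
      have h1 := (hn hc).1 i hi
      have h2 := hc i hit
      cases hfi : f i <;> cases hgi : g i <;> simp_all
    refine ⟨s ∪ t, fun i => if i ∈ s then f i else g i, Finset.subset_union_left,
      fun i hi => by simp [hi], Or.inl ?_⟩
    refine htg.mono fun n hn hc => (hn fun i hi => ?_).2
    have h1 := hc i (Finset.mem_union_right _ hi)
    by_cases his : i ∈ s
    · simpa only [if_pos his, hcomp i his hi] using h1
    · simpa only [if_neg his] using h1
  · refine ⟨s, f, Finset.Subset.refl _, fun _ _ => rfl, Or.inr ?_⟩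
    rw [Filter.not_frequently] at h
    exact h.mono fun n hn hc hx => hn ⟨hc, hx⟩

/-- The conditions supported in `S` which decide `X` are dense among the conditions supported
in `S`. -/
def DenseDec {W : Type} (a : W → Set ℕ) (F : Filter ℕ) (S : Set W) (X : Set ℕ) : Prop :=
  ∀ (s : Finset W) (f : W → Bool), (↑s : Set W) ⊆ S →
    ∃ (s' : Finset W) (f' : W → Bool), (↑s' : Set W) ⊆ S ∧ s ⊆ s' ∧ (∀ i ∈ s, f' i = f i) ∧ Decides a F s' f' X

theorem DenseDec.mono {W : Type} {a : W → Set ℕ} {F : Filter ℕ} {S T : Set W} {X : Set ℕ}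
    (h : DenseDec a F S X) (hST : S ⊆ T) : DenseDec a F T X := by
  classical
  intro s f hs
  obtain ⟨s', f', hs'S, hss', hff', hd⟩ := h (s.filter (· ∈ S)) f (by
    intro i hi
    exact (Finset.mem_filter.1 (Finset.mem_coe.1 hi)).2)
  refine ⟨s ∪ s', fun i => if i ∈ s then f i else f' i, ?_, Finset.subset_union_left,
    fun i hi => by simp [hi], hd.mono Finset.subset_union_right fun i hi => ?_⟩
  · intro i hi
    rcases Finset.mem_union.1 (Finset.mem_coe.1 hi) with h1 | h1
    · exact hs h1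
    · exact hST (hs'S h1)
  · by_cases his : i ∈ s
    · rw [if_pos his]
      exact (hff' i (Finset.mem_filter.2 ⟨his, hs'S hi⟩)).symm
    · rw [if_neg his]

theorem DenseDec.compl {W : Type} {a : W → Set ℕ} {F : Filter ℕ} {S : Set W} {X : Set ℕ}
    (h : DenseDec a F S X) : DenseDec a F S Xᶜ := by
  intro s f hs
  obtain ⟨s', f', h1, h2, h3, h4⟩ := h s f hs
  refine ⟨s', f', h1, h2, h3, ?_⟩
  rcases h4 with h4 | h4
  · exact Or.inr (h4.mono fun n hn hc hx => hx (hn hc))
  · exact Or.inl (h4.mono fun n hn hc => hn hc)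

theorem DenseDec.inter {W : Type} {a : W → Set ℕ} {F : Filter ℕ} {S : Set W} {X Y : Set ℕ}
    (h : DenseDec a F S X) (h' : DenseDec a F S Y) : DenseDec a F S (X ∩ Y) := by
  intro s f hs
  obtain ⟨s1, f1, h1, h2, h3, h4⟩ := h s f hs
  obtain ⟨s2, f2, k1, k2, k3, k4⟩ := h' s1 f1 h1
  refine ⟨s2, f2, k1, h2.trans k2, fun i hi => (k3 i (h2 hi)).trans (h3 i hi), ?_⟩
  rcases h4.mono k2 k3 with h5 | h5
  · rcases k4 with k5 | k5
    · exact Or.inl ((h5.and k5).mono fun n hn hc => ⟨hn.1 hc, hn.2 hc⟩)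
    · exact Or.inr (k5.mono fun n hn hc hx => hn hc hx.2)
  · exact Or.inr (h5.mono fun n hn hc hx => hn hc hx.1)

/-- If `X` is positive and densely decided by conditions supported in `S`, then some cell
supported in `S` is contained in `X` modulo `F`. -/
theorem DenseDec.exists_cell {W : Type} {a : W → Set ℕ} {F : Filter ℕ} (hP : Pos a F)
    (hmax : ∀ F' ≤ F, Pos a F' → F' = F) {S : Set W} {X : Set ℕ}
    (h : DenseDec a F S X) (hX : ∃ᶠ n in F, n ∈ X) :
    ∃ (s : Finset W) (f : W → Bool), (↑s : Set W) ⊆ S ∧ ∀ᶠ n in F, n ∈ cell a s f → n ∈ X := by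
  classical
  obtain ⟨t, g, htg⟩ := MI.exists_cell hmax hX
  obtain ⟨s', f', h1, h2, h3, h4⟩ := h (t.filter (· ∈ S)) g (by
    intro i hi
    exact (Finset.mem_filter.1 (Finset.mem_coe.1 hi)).2)
  rcases h4 with h4 | h4
  · exact ⟨s', f', h1, h4⟩
  · exfalso
    refine hP (s' ∪ t) (fun i => if i ∈ s' then f' i else g i) ?_
    refine (h4.and htg).mono fun n hn hc => ?_
    refine hn.1 (fun i hi => ?_) (hn.2 fun i hi => ?_)
    · have := hc i (Finset.mem_union_left _ hi)
      simpa only [if_pos hi] using this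
    · have := hc i (Finset.mem_union_right _ hi)
      by_cases his : i ∈ s'
      · simpa only [if_pos his, h3 i (Finset.mem_filter.2 ⟨hi, h1 his⟩)] using this
      · simpa only [if_neg his] using this

/-- Every `X` is densely decided by the conditions supported in some countable set. -/
theorem exists_countable_denseDec {W : Type} {a : W → Set ℕ} {F : Filter ℕ} (hP : Pos a F)
    (hmax : ∀ F' ≤ F, Pos a F' → F' = F) (X : Set ℕ) : ∃ S : Set W, S.Countable ∧
      DenseDec a F S X := by
  classical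
  choose S' f' h1 h2 h3 using fun (s t : Finset W) =>
    exists_decides hP hmax X s (fun i => decide (i ∈ t))
  let step : Set W → Set W := fun S => S ∪ ⋃ p : Finset S × Finset S,
    (↑(S' (p.1.map (Function.Embedding.subtype _)) (p.2.map (Function.Embedding.subtype _))) : Set W)
  let T : ℕ → Set W := fun n => step^[n] ∅
  have hTs : ∀ n, T (n + 1) = step (T n) := fun n => Function.iterate_succ_apply' _ _ _
  have hTc : ∀ n, (T n).Countable := by
    intro n
    induction n with
    | zero => exact Set.countable_empty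
    | succ n ih =>
      rw [hTs]
      have : Countable (T n) := ih.to_subtype
      refine ih.union (Set.countable_iUnion fun p => ?_)
      exact Finset.countable_toSet _
  have hTm : Monotone T := monotone_nat_of_le_succ fun n => by
    rw [hTs]
    exact Set.subset_union_left
  refine ⟨⋃ n, T n, Set.countable_iUnion hTc, fun s f hs => ?_⟩
  -- `s` is contained in some `T n`
  obtain ⟨n, hn⟩ : ∃ n, (↑s : Set W) ⊆ T n := by
    have h4 : ∀ i ∈ s, ∃ n, i ∈ T n := fun i hi => Set.mem_iUnion.1 (hs hi)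
    choose! m hm using h4
    refine ⟨s.sup m, fun i hi => hTm (Finset.le_sup (f := m) hi) (hm i hi)⟩
  let t := s.filter (fun i => f i = true)
  have ht : (↑t : Set W) ⊆ T n := fun i hi => hn (Finset.filter_subset _ _ hi)
  refine ⟨S' s t, f' s t, ?_, h1 s t, fun i hi => ?_, h3 s t⟩
  · intro i hi
    refine Set.mem_iUnion.2 ⟨n + 1, ?_⟩
    rw [hTs]
    refine Or.inr (Set.mem_iUnion.2 ⟨(s.subtype (· ∈ T n), t.subtype (· ∈ T n)), ?_⟩)
    have e1 : (s.subtype (· ∈ T n)).map (Function.Embedding.subtype _) = s :=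
      Finset.subtype_map_of_mem fun i hi => hn hi
    have e2 : (t.subtype (· ∈ T n)).map (Function.Embedding.subtype _) = t :=
      Finset.subtype_map_of_mem fun i hi => ht hi
    rw [e1, e2]
    exact hi
  · rw [h2 s t i hi]
    simp only [t, Finset.mem_filter, hi, true_and]
    cases f i <;> simp

end Pool.Agent.Q307.MI
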