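import Mathlib
import Pool.Agent.Q307.MI.Defs
import Pool.Agent.Q307.MI.Indep
import Pool.Agent.Q307.MI.Filt
import Pool.Agent.Q307.Lip.Basic

/-!
# Maximal ideals of cofinality `𝔠` with relative cofinality `ℵ₁`
-/

set_option autoImplicit false

namespace Pool.Agent.Q307.MI

open Cardinal Filter Set

/-- The dual ideal of a proper filter containing the cofinite sets. -/
theorem isIdealOn_dual (F : Filter ℕ) [F.NeBot] (hF : F ≤ cofinite) :
    IsIdealOn {X | Xᶜ ∈ F} where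
  subset_mem A hA B hB := mem_of_superset hA (Set.compl_subset_compl.2 hB)
  union_mem A hA B hB := by
    rw [Set.mem_ofPred_eq, Set.compl_union]
    exact inter_mem hA hB
  univ_notMem h := by
    rw [Set.mem_ofPred_eq, Set.compl_univ] at h
    exact F.empty_notMem h
  finite_mem A hA := hF (by simpa using hA)

theorem isMaximalIdeal_dual (p : Ultrafilter ℕ) (hF : (p : Filter ℕ) ≤ cofinite) :
    IsMaximalIdeal {X | Xᶜ ∈ p} := by
  refine ⟨isIdealOn_dual (p : Filter ℕ) hF, fun I' hI' hsub => ?_⟩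
  refine Set.Subset.antisymm (fun X hX => ?_) hsub
  by_contra hcon
  rw [Set.mem_ofPred_eq, Ultrafilter.compl_mem_iff_notMem, not_not] at hcon
  have h1 : Xᶜ ∈ I' := hsub (by
    rw [Set.mem_ofPred_eq, compl_compl]
    exact hcon)
  have h2 := hI'.union_mem X hX Xᶜ h1
  rw [Set.union_compl_self] at h2
  exact hI'.univ_notMem h2

/-- The generators of the base filter. -/
def gens {C : Type} (b : C → Set ℕ) : Set (Set ℕ) :=
  {X | Xᶜ.Finite} ∪ Set.range b ∪ {X | {η | Xᶜ ⊆ b η}.Infinite}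

/-- Every Boolean combination of the `a i` is positive with respect to the base filter. -/
theorem pos_gens {W C : Type} (a : W → Set ℕ) (b : C → Set ℕ)
    (hab : ∀ (s t : Finset W) (s' t' : Finset C), Disjoint s t → Disjoint s' t' →
      {n | (∀ i ∈ s, n ∈ a i) ∧ (∀ i ∈ t, n ∉ a i) ∧ (∀ i ∈ s', n ∈ b i) ∧
        ∀ i ∈ t', n ∉ b i}.Infinite) : Pos a (Filter.generate (gens b)) := by
  classical
  intro s f
  rw [Filter.frequently_iff]
  intro U hU
  obtain ⟨t, htsub, htfin, htU⟩ := Filter.mem_generate_iff.1 hU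
  -- the indices of the `b` in `t`
  obtain ⟨s1, hs1⟩ : ∃ s1 : Finset C, ∀ X ∈ t, X ∈ Set.range b → ∃ η ∈ s1, X = b η := by
    have h1 : ∀ X : Set ℕ, ∃ s1 : Finset C, X ∈ Set.range b → ∃ η ∈ s1, X = b η := by
      intro X
      by_cases h : X ∈ Set.range b
      · obtain ⟨η, rfl⟩ := h
        exact ⟨{η}, fun _ => ⟨η, Finset.mem_singleton_self _, rfl⟩⟩
      · exact ⟨∅, fun h' => absurd h' h⟩
    choose S hS using h1
    refine ⟨htfin.toFinset.biUnion S, fun X hX hXb => ?_⟩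
    obtain ⟨η, hη, hX'⟩ := hS X hXb
    exact ⟨η, Finset.mem_biUnion.2 ⟨X, htfin.mem_toFinset.2 hX, hη⟩, hX'⟩
  obtain ⟨s2, hs12, hs2⟩ : ∃ s2 : Finset C, Disjoint s1 s2 ∧
      ∀ X ∈ t, {η | Xᶜ ⊆ b η}.Infinite → ∃ η ∈ s2, Xᶜ ⊆ b η := by
    have h1 : ∀ X : Set ℕ, ∃ s2 : Finset C, Disjoint s1 s2 ∧
        ({η | Xᶜ ⊆ b η}.Infinite → ∃ η ∈ s2, Xᶜ ⊆ b η) := by
      intro X
      by_cases h : {η | Xᶜ ⊆ b η}.Infinite
      · obtain ⟨η, hη, hη'⟩ := h.exists_notMem_finset s1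
        exact ⟨{η}, Finset.disjoint_singleton_right.2 hη',
          fun _ => ⟨η, Finset.mem_singleton_self _, hη⟩⟩
      · exact ⟨∅, Finset.disjoint_empty_right _, fun h' => absurd h' h⟩
    choose S hS hS' using h1
    refine ⟨htfin.toFinset.biUnion S, ?_, fun X hX hXb => ?_⟩
    · rw [Finset.disjoint_biUnion_right]
      exact fun X _ => hS X
    · obtain ⟨η, hη, hX'⟩ := hS' X hXb
      exact ⟨η, Finset.mem_biUnion.2 ⟨X, htfin.mem_toFinset.2 hX, hη⟩, hX'⟩
  obtain ⟨E, hE, hEt⟩ : ∃ E : Set ℕ, E.Finite ∧ ∀ X ∈ t, Xᶜ.Finite → Xᶜ ⊆ E := by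
    refine ⟨⋃ X ∈ {X ∈ t | Xᶜ.Finite}, Xᶜ, ?_, fun X hX hXf => ?_⟩
    · exact (htfin.subset (Set.sep_subset _ _)).biUnion fun X hX => hX.2
    · exact Set.subset_biUnion_of_mem (u := fun X : Set ℕ => Xᶜ) (show X ∈ {X ∈ t | Xᶜ.Finite} from
        ⟨hX, hXf⟩)
  have hinf := hab (s.filter (f · = true)) (s.filter (f · = false)) s1 s2 (by
    rw [Finset.disjoint_left]
    intro i hi hi'
    have h1 := (Finset.mem_filter.1 hi).2
    have h2 := (Finset.mem_filter.1 hi').2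
    rw [h1] at h2
    exact absurd h2 (by simp)) hs12
  obtain ⟨n, ⟨h1, h2, h3, h4⟩, hnE⟩ := hinf.exists_notMem_finite hE
  refine ⟨n, htU ?_, fun i hi => ?_⟩
  · intro X hX
    rcases htsub hX with (hX' | hX') | hX'
    · by_contra hcon
      exact hnE (hEt X hX hX' hcon)
    · obtain ⟨η, hη, rfl⟩ := hs1 X hX hX'
      exact h3 η hη
    · obtain ⟨η, hη, hη'⟩ := hs2 X hX hX'
      by_contra hcon
      exact h4 η hη (hη' hcon)
  · cases hfi : f i with
    | true => simpa using h1 i (Finset.mem_filter.2 ⟨hi, hfi⟩)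
    | false => simpa using h2 i (Finset.mem_filter.2 ⟨hi, hfi⟩)

/-- Every ultrafilter which contains the base filter has character `𝔠`. -/
theorem cof_eq {C : Type} (hC : #C = 𝔠) (b : C → Set ℕ) (p : Ultrafilter ℕ)
    (hp : (p : Filter ℕ) ≤ Filter.generate (gens b)) : cof {X | Xᶜ ∈ p} = 𝔠 := by
  have hgen : ∀ X ∈ gens b, X ∈ p := fun X hX => hp (Filter.mem_generate_of_mem hX)
  have hne : {κ | ∃ B : Set (Set ℕ), B ⊆ {X | Xᶜ ∈ p} ∧ #B = κ ∧
      ∀ X ∈ {X | Xᶜ ∈ p}, ∃ Y ∈ B, X ⊆ Y}.Nonempty :=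
    ⟨_, {X | Xᶜ ∈ p}, Set.Subset.refl _, rfl, fun X hX => ⟨X, hX, Set.Subset.refl _⟩⟩
  apply le_antisymm
  · have hmem : #{X | Xᶜ ∈ p} ∈ {κ | ∃ B : Set (Set ℕ), B ⊆ {X | Xᶜ ∈ p} ∧ #B = κ ∧
        ∀ X ∈ {X | Xᶜ ∈ p}, ∃ Y ∈ B, X ⊆ Y} :=
      ⟨{X | Xᶜ ∈ p}, Set.Subset.refl _, rfl, fun X hX => ⟨X, hX, Set.Subset.refl _⟩⟩
    refine (csInf_le' hmem).trans ?_
    refine (Cardinal.mk_set_le _).trans ?_
    rw [Cardinal.mk_set_nat]
  · refine le_csInf hne ?_
    rintro κ ⟨B, hB, rfl, hcof⟩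
    by_contra hlt
    rw [not_le] at hlt
    have h1 : ∀ η, ∃ Y : B, (b η)ᶜ ⊆ Y.1 := by
      intro η
      obtain ⟨Y, hY, h⟩ := hcof (b η)ᶜ (by
        rw [Set.mem_ofPred_eq, compl_compl]
        exact hgen _ (Or.inl (Or.inr ⟨η, rfl⟩)))
      exact ⟨⟨Y, hY⟩, h⟩
    choose g hg using h1
    -- some fibre is infinite
    obtain ⟨Y, hY⟩ : ∃ Y : B, (g ⁻¹' {Y}).Infinite := by
      by_contra hcon
      push Not at hcon
      have h2 : #C ≤ max #B ℵ₀ := by
        have h3 : #C = Cardinal.sum fun Y : B => #(g ⁻¹' {Y}) := by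
          rw [← Cardinal.mk_sigma]
          exact Cardinal.mk_congr (Equiv.sigmaFiberEquiv g).symm
        rw [h3]
        refine (Cardinal.sum_le_mk_mul_iSup _).trans ?_
        refine (mul_le_mul' le_rfl (ciSup_le' (a := ℵ₀) fun Y => ?_)).trans
          (Cardinal.mul_le_max_of_aleph0_le_right le_rfl)
        exact (Cardinal.lt_aleph0_iff_set_finite.2 (hcon Y)).le
      rw [hC] at h2
      exact absurd h2 (not_le.2 (max_lt hlt Cardinal.aleph0_lt_continuum))
    have h4 : Y.1 ∈ gens b := by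
      refine Or.inr ?_
      refine hY.mono fun η hη => ?_
      have h5 : g η = Y := hη
      rw [Set.mem_ofPred_eq, Set.compl_subset_comm, ← h5]
      exact hg η
    have h6 := hgen _ h4
    have h7 : Y.1ᶜ ∈ p := hB Y.2
    exact (Ultrafilter.compl_mem_iff_notMem.1 h7) h6

/-- The main construction. -/
theorem main : ∃ I J : Set (Set ℕ), IsMaximalIdeal I ∧ IsIdealOn J ∧ J ⊆ I ∧ cof I = 𝔠 ∧
    relCof J I = ℵ₁ := by
  classical
  obtain ⟨W, _, hW, hIic⟩ := Lip.exists_omega1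
  have hbdd : ∀ S : Set W, S.Countable → ∃ w, ∀ v ∈ S, v < w := by
    intro S hS
    by_contra hcon
    push Not at hcon
    have h1 : (⋃ v ∈ S, Set.Iic v).Countable := hS.biUnion fun v _ => hIic v
    have h2 : (Set.univ : Set W).Countable := h1.mono fun w _ => by
      obtain ⟨v, hv, hvw⟩ := hcon w
      exact Set.mem_biUnion hv hvw
    have h3 : #W ≤ ℵ₀ := Cardinal.mk_le_aleph0_iff.2 (Set.countable_univ_iff.1 h2)
    rw [hW, ← succ_aleph0] at h3
    exact absurd h3 (not_le.2 (Order.lt_succ _))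
  have hW' : ℵ₁ ≤ 𝔠 := by
    rw [← succ_aleph0]
    exact Order.succ_le_of_lt Cardinal.aleph0_lt_continuum
  -- the independent family
  obtain ⟨x, hx⟩ := exists_indep (W ⊕ Set ℕ) (by
    rw [Cardinal.mk_sum, Cardinal.lift_id, Cardinal.lift_id, hW, Cardinal.mk_set_nat]
    exact (add_le_add hW' le_rfl).trans Cardinal.continuum_add_self.le)
  let a : W → Set ℕ := fun w => x (Sum.inl w)
  let b : Set ℕ → Set ℕ := fun c => x (Sum.inr c)
  have hP0 : Pos a (Filter.generate (gens b)) := by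
    refine pos_gens a b fun s t s' t' hst hst' => ?_
    refine (hx (s.disjSum s') (t.disjSum t') ?_).mono ?_
    · rw [Finset.disjoint_left]
      intro i hi hi'
      rcases i with i | i
      · rw [Finset.inl_mem_disjSum] at hi hi'
        exact Finset.disjoint_left.1 hst hi hi'
      · rw [Finset.inr_mem_disjSum] at hi hi'
        exact Finset.disjoint_left.1 hst' hi hi'
    · rintro n ⟨h1, h2⟩
      exact ⟨fun i hi => h1 _ (Finset.inl_mem_disjSum.2 hi),
        fun i hi => h2 _ (Finset.inl_mem_disjSum.2 hi),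
        fun i hi => h1 _ (Finset.inr_mem_disjSum.2 hi),
        fun i hi => h2 _ (Finset.inr_mem_disjSum.2 hi)⟩
  obtain ⟨F, hF0, hP, hmax⟩ := exists_maximal a _ hP0
  have hcof0 : F ≤ cofinite := by
    refine hF0.trans fun X hX => Filter.mem_generate_of_mem (Or.inl (Or.inl ?_))
    simpa using hX
  -- the ultrafilter `p`
  let Fp : Filter ℕ :=
    { sets := {X | ∃ s : Finset W, ∀ᶠ n in F, (∀ i ∈ s, n ∈ a i) → n ∈ X}
      univ_sets := ⟨∅, by simp⟩
      sets_of_superset := fun {X Y} hX hXY => by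
        obtain ⟨s, hs⟩ := hX
        exact ⟨s, hs.mono fun n hn h => hXY (hn h)⟩
      inter_sets := fun {X Y} hX hY => by
        obtain ⟨s, hs⟩ := hX
        obtain ⟨t, ht⟩ := hY
        exact ⟨s ∪ t, (hs.and ht).mono fun n hn h =>
          ⟨hn.1 fun i hi => h i (Finset.mem_union_left _ hi),
            hn.2 fun i hi => h i (Finset.mem_union_right _ hi)⟩⟩ }
  have hFp : Fp.NeBot := by
    rw [Filter.neBot_iff, Ne, ← Filter.empty_mem_iff_bot]
    rintro ⟨s, hs⟩
    exact hP s (fun _ => true) (hs.mono fun n hn hc => hn fun i hi => (hc i hi).2 rfl)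
  let p : Ultrafilter ℕ := Ultrafilter.of Fp
  have hpF : (p : Filter ℕ) ≤ F := (Ultrafilter.of_le Fp).trans fun X hX =>
    ⟨∅, Filter.mem_of_superset hX fun n hn _ => hn⟩
  have hpa : ∀ i, a i ∈ p := fun i => (Ultrafilter.of_le Fp)
    ⟨{i}, Filter.Eventually.of_forall fun n h => h i (Finset.mem_singleton_self _)⟩
  -- the ultrafilters `y w`
  let G : W → Filter ℕ := fun w =>
    { sets := {X | ∃ Y ∈ p, DenseDec a F (Set.Iic w) Y ∧ ∃ s : Finset W, (∀ i ∈ s, w < i) ∧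
        ∀ᶠ n in F, n ∈ Y → (∀ i ∈ s, n ∉ a i) → n ∈ X}
      univ_sets := ⟨Set.univ, Filter.univ_mem, fun s f hs => ⟨s, f, hs, Finset.Subset.refl _,
        fun _ _ => rfl, Or.inl (by simp)⟩, ∅, by simp, by simp⟩
      sets_of_superset := fun {X Z} hX hXZ => by
        obtain ⟨Y, hY, hYd, s, hs, h⟩ := hX
        exact ⟨Y, hY, hYd, s, hs, h.mono fun n hn h1 h2 => hXZ (hn h1 h2)⟩
      inter_sets := fun {X Z} hX hZ => by
        obtain ⟨Y, hY, hYd, s, hs, h⟩ := hX
        obtain ⟨Y', hY', hYd', s', hs', h'⟩ := hZ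
        refine ⟨Y ∩ Y', Filter.inter_mem hY hY', hYd.inter hYd', s ∪ s', ?_, ?_⟩
        · intro i hi
          rcases Finset.mem_union.1 hi with h1 | h1
          · exact hs i h1
          · exact hs' i h1
        · exact (h.and h').mono fun n hn h1 h2 =>
            ⟨hn.1 h1.1 fun i hi => h2 i (Finset.mem_union_left _ hi),
              hn.2 h1.2 fun i hi => h2 i (Finset.mem_union_right _ hi)⟩ }
  have hG : ∀ w, (G w).NeBot := by
    intro w
    rw [Filter.neBot_iff, Ne, ← Filter.empty_mem_iff_bot]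
    rintro ⟨Y, hY, hYd, s, hs, h⟩
    have hYpos : ∃ᶠ n in F, n ∈ Y := by
      intro hcon
      have h1 : ∀ᶠ n in (p : Filter ℕ), n ∉ Y := hpF hcon
      have h2 : Y ∩ Yᶜ ∈ p := Filter.inter_mem hY h1
      rw [Set.inter_compl_self] at h2
      exact p.empty_notMem h2
    obtain ⟨t, g, ht, htg⟩ := hYd.exists_cell hP hmax hYpos
    refine hP (t ∪ s) (fun i => if i ∈ t then g i else false) ?_
    refine (htg.and h).mono fun n hn hc => ?_
    refine hn.2 (hn.1 fun i hi => ?_) fun i hi hin => ?_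
    · have := hc i (Finset.mem_union_left _ hi)
      simpa only [if_pos hi] using this
    · have h1 := hc i (Finset.mem_union_right _ hi)
      have h2 : i ∉ t := fun hit => absurd (hs i hi) (not_lt.2 (ht hit))
      simp only [if_neg h2] at h1
      exact absurd (h1.1 hin) (by simp)
  let y : W → Ultrafilter ℕ := fun w => Ultrafilter.of (G w)
  have hyF : ∀ w, (y w : Filter ℕ) ≤ F := fun w => (Ultrafilter.of_le (G w)).trans fun X hX =>
    ⟨Set.univ, Filter.univ_mem, fun s f hs => ⟨s, f, hs, Finset.Subset.refl _,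
        fun _ _ => rfl, Or.inl (by simp)⟩, ∅, by simp, Filter.mem_of_superset hX fun n hn _ _ => hn⟩
  have hyp : ∀ w Y, Y ∈ p → DenseDec a F (Set.Iic w) Y → Y ∈ y w := fun w Y hY hYd =>
    (Ultrafilter.of_le (G w)) ⟨Y, hY, hYd, ∅, by simp, Filter.Eventually.of_forall fun n h _ => h⟩
  have hya : ∀ w i, w < i → (a i)ᶜ ∈ y w := fun w i hwi =>
    (Ultrafilter.of_le (G w)) ⟨Set.univ, Filter.univ_mem, fun s f hs => ⟨s, f, hs,
      Finset.Subset.refl _, fun _ _ => rfl, Or.inl (by simp)⟩, {i}, by simpa using hwi,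
      Filter.Eventually.of_forall fun n _ h => h i (Finset.mem_singleton_self _)⟩
  -- every set is densely decided below some `w`
  have hdec : ∀ X, ∃ w, DenseDec a F (Set.Iic w) X := by
    intro X
    obtain ⟨S, hS, hSd⟩ := exists_countable_denseDec hP hmax X
    obtain ⟨w, hw⟩ := hbdd S hS
    exact ⟨w, hSd.mono fun v hv => (hw v hv).le⟩
  obtain ⟨w0, -⟩ := hbdd ∅ Set.countable_empty
  refine ⟨{X | Xᶜ ∈ p}, {X | ∀ w, Xᶜ ∈ y w}, isMaximalIdeal_dual p (hpF.trans hcof0), ?_, ?_,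
    cof_eq Cardinal.mk_set_nat b p (hpF.trans hF0), ?_⟩
  · -- `J` is an ideal
    refine ⟨fun A hA B hB w => Filter.mem_of_superset (hA w) (Set.compl_subset_compl.2 hB),
      fun A hA B hB w => ?_, fun h => ?_, fun A hA w => ?_⟩
    · rw [Set.compl_union]
      exact Filter.inter_mem (hA w) (hB w)
    · have := h w0
      rw [Set.compl_univ] at this
      exact (y w0).empty_notMem this
    · exact (hyF w).trans hcof0 (by simpa using hA)
  · -- `J ⊆ I`
    intro X hX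
    rw [Set.mem_ofPred_eq, Ultrafilter.compl_mem_iff_notMem]
    intro hXp
    obtain ⟨w, hw⟩ := hdec X
    exact (Ultrafilter.compl_mem_iff_notMem.1 (hX w)) (hyp w X hXp hw)
  · -- the relative cofinality
    have hmem : ∀ w, (a w)ᶜ ∈ {X : Set ℕ | Xᶜ ∈ p} := fun w => by
      rw [Set.mem_ofPred_eq, compl_compl]
      exact hpa w
    have hwit : #(Set.range fun w => (a w)ᶜ) ∈ {κ | ∃ A : Set (Set ℕ),
        A ⊆ {X : Set ℕ | Xᶜ ∈ p} ∧ #A = κ ∧
        ∀ X ∈ {X : Set ℕ | Xᶜ ∈ p}, ∃ Y ∈ A, X \ Y ∈ {X | ∀ w, Xᶜ ∈ y w}} := by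
      refine ⟨Set.range fun w => (a w)ᶜ, ?_, rfl, fun X hX => ?_⟩
      · rintro _ ⟨w, rfl⟩
        exact hmem w
      · obtain ⟨v, hv⟩ := hdec X
        refine ⟨(a v)ᶜ, ⟨v, rfl⟩, fun w => ?_⟩
        rcases lt_or_ge w v with hlt | hge
        · refine Filter.mem_of_superset (hya w v hlt) ?_
          intro n hn hn'
          exact hn'.2 hn
        · have h1 : Xᶜ ∈ y w := hyp w _ hX (hv.compl.mono (Set.Iic_subset_Iic.2 hge))
          refine Filter.mem_of_superset h1 ?_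
          intro n hn hn'
          exact hn hn'.1
    apply le_antisymm
    · refine (csInf_le' hwit).trans ?_
      rw [← hW]
      exact Cardinal.mk_range_le
    · refine le_csInf ⟨_, hwit⟩ ?_
      rintro κ ⟨A, hA, rfl, hAcof⟩
      by_contra hlt
      rw [not_le, ← succ_aleph0, Order.lt_succ_iff] at hlt
      have hAc : A.Countable := Cardinal.le_aleph0_iff_set_countable.1 hlt
      choose v hv using hdec
      obtain ⟨w, hw⟩ := hbdd (v '' A) (hAc.image v)
      obtain ⟨w', hw'⟩ := hbdd {w} (Set.countable_singleton w)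
      obtain ⟨Y, hY, hYJ⟩ := hAcof _ (hmem w')
      have h1 : Yᶜ ∈ y w := hyp w _ (hA hY)
        ((hv Y).compl.mono (Set.Iic_subset_Iic.2 (hw _ ⟨Y, hY, rfl⟩).le))
      have h2 : (a w')ᶜ ∈ y w := hya w w' (hw' w rfl)
      have h3 : ((a w')ᶜ \ Y)ᶜ ∈ y w := hYJ w
      have h4 : (a w')ᶜ \ Y ∈ y w := Filter.inter_mem h2 h1
      exact (Ultrafilter.compl_mem_iff_notMem.1 h3) h4

end Pool.Agent.Q307.MI
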